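import Pool.Agent.Y134.MR.Defs
import Pool.Agent.X292.TS.Lvl
import Pool.Agent.X292.AV.Pub

/-!
# Motives of odd weight with a place of bad reduction: definitions
-/

set_option autoImplicit false
set_option linter.unusedSectionVars false

namespace Pool.Agent.X292.MS

open Module Pool.Agent.Y134.MR Pool.Agent.X292.TS

section one

variable {K : Type} [Field K] {Γ G : Type} [Group Γ] [Group G] {T : Type} [AddCommGroup T]
  [Module K T] {E : Type} [AddCommGroup E] [Module K E]

/-- `T` is a motive of the odd weight `w` (a representation `τ` of the motivic Galois group `G`)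
with an alternating polarization `B` with values in `1(-w)` (the group acts on `1(-1)` through `q`),
irreducible under all subgroups of finite index of the Galois group `Γ`. -/
structure IsOddMotive (ι : Γ →* G) (q : G →* Kˣ) (w : ℕ) (τ : Representation K G T)
    (B : T →ₗ[K] T →ₗ[K] K) : Prop where
  odd : Odd w
  anti : ∀ x y, B x y = -B y x
  nondeg : ∀ x, (∀ y, B x y = 0) → x = 0
  equiv : ∀ g x y, B (τ g x) (τ g y) = (q g : K) ^ w * B x y
  irreducible : StronglyIrreducible ι τ

/-- The element `γ` of the Galois group acts on `T` unipotently, and one of the following is true: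
`(γ - 1) ^ 2 = 0`, and the defects of `γ` have no common prime factor, or two is a defect; there is a
Jordan block of size one, the sizes of the others are even, and an even number is the size of exactly
one block; there is only one Jordan block, and the dimension is two, or the eigenvalues of some
element of `Γ` are not a geometric progression. -/
def BadElement (ι : Γ →* G) (τ : Representation K G T) (γ : Γ) : Prop :=
  AV.S.ToricElement (τ.comp ι) γ ∨ EvenBlocks (τ (ι γ) - 1) ∨
    OneBlock (τ (ι γ) - 1) ∧ NotGeometric (τ.comp ι)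

/-- `E` carries a nondegenerate form `B` with `B(x, y) = s B(y, x)` on which the Galois group acts
through a character. -/
def HasFormOfType (ι : Γ →* G) (s : K) (σ : Representation K G E) : Prop :=
  ∃ (μ : Γ →* Kˣ) (B : E →ₗ[K] E →ₗ[K] K), (∀ x y, B x y = s * B y x) ∧
    (∀ x, (∀ y, B x y = 0) → x = 0) ∧
    ∀ g x y, B (σ (ι g) x) (σ (ι g) y) = (μ g : K) * B x y

/-- The rank of `γ - 1`. -/
noncomputable def rankOf (ι : Γ →* G) (σ : Representation K G E) (γ : Γ) : ℕ :=
  finrank K (LinearMap.range (σ (ι γ) - 1))

/-- The representation `E` is small compared with `T`: it carries a symmetric form and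
`dim E ≤ dim T`, or it carries an alternating form and `dim E < dim T`; or `(γ - 1) ^ d` is zero on
`E` and not zero on `T` for some `d`; or `(γ - 1) ^ 2 = 0` on both, and the ranks `s` on `E` and `r`
on `T` of `γ - 1` satisfy `2 s ^ 2 < r (r + 1)`, or `s ≤ r` and `E` carries a symmetric form, or
`s < r` and `E` carries an alternating form. -/
def IsSmall (ι : Γ →* G) (τ : Representation K G T) (γ : Γ) (σ : Representation K G E) : Prop :=
  (HasFormOfType ι 1 σ ∧ finrank K E ≤ finrank K T) ∨
  (HasFormOfType ι (-1) σ ∧ finrank K E < finrank K T) ∨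
  (∃ d : ℕ, (σ (ι γ) - 1) ^ d = 0 ∧ (τ (ι γ) - 1) ^ d ≠ 0) ∨
  ((σ (ι γ) - 1) ^ 2 = 0 ∧ (τ (ι γ) - 1) ^ 2 = 0 ∧
    (2 * rankOf ι σ γ ^ 2 < rankOf ι τ γ * (rankOf ι τ γ + 1) ∨
      (HasFormOfType ι 1 σ ∧ rankOf ι σ γ ≤ rankOf ι τ γ) ∨
      (HasFormOfType ι (-1) σ ∧ rankOf ι σ γ < rankOf ι τ γ)))

end one

section family

variable {K : Type} [Field K] {Γ G : Type} [Group Γ] [Group G] {A : Type} {T : A → Type}
  [∀ a, AddCommGroup (T a)] [∀ a, Module K (T a)] {E : Type} [AddCommGroup E] [Module K E]

/-- The map `σ(g) ∘ φ ∘ τ(g)⁻¹`: the action of `g` on the multilinear maps from the product of the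
`T (s 0), …, T (s (n - 1))` to `E`, that is on `Hom (T_(s 0) ⊗ ⋯ ⊗ T_(s (n - 1)), E)`. -/
def act {n : ℕ} (s : Fin n → A) (τ : ∀ a, Representation K G (T a)) (σ : Representation K G E)
    (g : G) (φ : MultilinearMap K (fun l : Fin n => T (s l)) E) :
    MultilinearMap K (fun l : Fin n => T (s l)) E :=
  (σ g).compMultilinearMap (φ.compLinearMap fun l => τ (s l) g⁻¹)

/-- All Tate classes in the Tate twists of the motives `Hom (T_(s 0) ⊗ ⋯ ⊗ T_(s (n - 1)), E)` are
motivated: an element on which a subgroup of finite index of the Galois group `Γ` acts through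
`q ^ j` is an element on which a subgroup of finite index of the motivic Galois group `G` acts
through `q ^ j`. -/
def HomMotivated (ι : Γ →* G) (q : G →* Kˣ) (τ : ∀ a, Representation K G (T a))
    (σ : Representation K G E) : Prop :=
  ∀ (n : ℕ) (s : Fin n → A) (j : ℤ) (φ : MultilinearMap K (fun l => T (s l)) E),
    (∃ Δ : Subgroup Γ, Δ.FiniteIndex ∧
      ∀ t ∈ Δ, act s τ σ (ι t) φ = ((q (ι t) ^ j : Kˣ) : K) • φ) →
    ∃ Δ : Subgroup G, Δ.FiniteIndex ∧ ∀ g ∈ Δ, act s τ σ g φ = ((q g ^ j : Kˣ) : K) • φ

/-- The same without an extension of the base field: an element of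
`Hom (T_(s 0) ⊗ ⋯ ⊗ T_(s (n - 1)), E)` on which the Galois group acts through `q ^ j` is an element on
which the motivic Galois group acts through `q ^ j`. -/
def HomSameTateClasses (ι : Γ →* G) (q : G →* Kˣ) (τ : ∀ a, Representation K G (T a))
    (σ : Representation K G E) : Prop :=
  ∀ (n : ℕ) (s : Fin n → A) (j : ℤ) (φ : MultilinearMap K (fun l => T (s l)) E),
    (∀ t, act s τ σ (ι t) φ = ((q (ι t) ^ j : Kˣ) : K) • φ) →
    ∀ g, act s τ σ g φ = ((q g ^ j : Kˣ) : K) • φ

/-- The motive `E` is in the tensor category generated by the `T a` and the Tate motives: it is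
spanned by the values of multilinear maps `φ` on products of the `T a` which are equivariant up to a
power of `q`, that is by images of morphisms from Tate twists of tensor products of the `T a`. -/
def BuiltFrom (q : G →* Kˣ) (τ : ∀ a, Representation K G (T a)) (σ : Representation K G E) :
    Prop :=
  Submodule.span K {y : E | ∃ (n : ℕ) (s : Fin n → A) (c : ℤ)
    (φ : MultilinearMap K (fun l : Fin n => T (s l)) E),
    (∀ g v, φ (fun l => τ (s l) g (v l)) = ((q g ^ c : Kˣ) : K) • σ g (φ v)) ∧
      ∃ v, φ v = y} = ⊤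

/-- A finite family of motives `T a` of odd weights `w a` with elements `γ a` as in `BadElement`,
which are not isomorphic to each other up to a function on the Galois group, and a finite family
of motives `U c` which are small compared with all `T a`. -/
structure BadFamily (ι : Γ →* G) (q : G →* Kˣ) (w : A → ℕ) (τ : ∀ a, Representation K G (T a))
    (B : ∀ a, T a →ₗ[K] T a →ₗ[K] K) (γ : A → Γ) {m : ℕ} {U : Fin m → Type}
    [∀ c, AddCommGroup (U c)] [∀ c, Module K (U c)] (υ : ∀ c, Representation K G (U c)) :
    Prop where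
  motive : ∀ a, IsOddMotive ι q (w a) (τ a) (B a)
  bad : ∀ a, BadElement ι (τ a) (γ a)
  distinct : ∀ a b, a ≠ b → ¬AV.S.IsoUpToFunction ((τ a).comp ι) ((τ b).comp ι)
  small : ∀ c a, IsSmall ι (τ a) (γ a) (υ c)

/-- Every multilinear map `φ` from the product of the `T (s l)` to `E` on which a subgroup of finite
index of the Galois group acts through a power of `q` is a linear combination of products of values
of the polarizations, multiplied by vectors of `E`. -/
def GeneratedByPolarizations [DecidableEq A] (ι : Γ →* G) (q : G →* Kˣ)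
    (τ : ∀ a, Representation K G (T a)) (B : ∀ a, T a →ₗ[K] T a →ₗ[K] K)
    (σ : Representation K G E) : Prop :=
  ∀ (n : ℕ) (s : Fin n → A) (φ : MultilinearMap K (fun l => T (s l)) E) (j : ℤ)
    (Δ : Subgroup Γ), Δ.FiniteIndex →
    (∀ g ∈ Δ, act s τ σ (ι g) φ = ((q (ι g) ^ j : Kˣ) : K) • φ) →
    (fun v => φ v) ∈ Submodule.span K {f : (∀ l, T (s l)) → E |
      ∃ (r : ℕ) (e : Fin r × Fin 2 ≃ Fin n) (y : E), f = fun v => AV.S.pairings B s e v • y}

end family

end Pool.Agent.X292.MS
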