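import Pool.Agent.X292.MS.Op
import Pool.Agent.X292.AV.Fft

/-!
# Tate classes in tensor constructions of motives of odd weight with a place of bad reduction
-/

set_option autoImplicit false
set_option linter.unusedSectionVars false

namespace Pool.Agent.X292.MS

open Module Finset Function Pool.Agent.Y134.MR Pool.Agent.Y130.MM Pool.Agent.X292.SP
  Pool.Agent.X292.AV Pool.Agent.X292.AV.S

noncomputable section

variable {K : Type} [Field K] [CharZero K] [IsAlgClosed K] {Γ G : Type} [Group Γ] [Group G]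
  {ι : Γ →* G} {q : G →* Kˣ}

/-- The representation `φ ↦ σ(g) ∘ φ ∘ τ(g)⁻¹` on the space of the multilinear maps. -/
def homRep {A : Type} {T : A → Type} [∀ a, AddCommGroup (T a)] [∀ a, Module K (T a)] {E : Type}
    [AddCommGroup E] [Module K E] {n : ℕ} (s : Fin n → A) (τ : ∀ a, Representation K G (T a))
    (σ : Representation K G E) :
    Representation K G (MultilinearMap K (fun l : Fin n => T (s l)) E) where
  toFun g :=
    { toFun := fun φ => act s τ σ g φ
      map_add' := fun φ φ' => by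
        ext v
        simp [act]
      map_smul' := fun c φ => by
        ext v
        simp [act] }
  map_one' := by
    ext φ v
    simp [act]
  map_mul' g h := by
    ext φ v
    simp [act]

/-- one subgroup for all vectors -/
theorem uniform {E : Type} [AddCommGroup E] [Module K E] [FiniteDimensional K E]
    {σ : Representation K G E} {j : ℤ} {S : Submodule K E}
    (h : ∀ y ∈ S, ∃ Δ : Subgroup G, Δ.FiniteIndex ∧ ∀ g ∈ Δ, σ g y = ((q g ^ j : Kˣ) : K) • y) :
    ∃ Δ : Subgroup G, Δ.FiniteIndex ∧ ∀ g ∈ Δ, ∀ y ∈ S, σ g y = ((q g ^ j : Kˣ) : K) • y := by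
  obtain ⟨s, hs⟩ := (inferInstance : IsNoetherian K E).noetherian S
  have h1 : ∀ y : s, ∃ Δ : Subgroup G, Δ.FiniteIndex ∧
      ∀ g ∈ Δ, σ g (y : E) = ((q g ^ j : Kˣ) : K) • (y : E) := fun y =>
    h y (by rw [← hs]; exact Submodule.subset_span y.2)
  choose Δ hΔ hy using h1
  refine ⟨⨅ y, Δ y, Subgroup.finiteIndex_iInf hΔ, fun g hg y hyS => ?_⟩
  rw [← hs] at hyS
  induction hyS using Submodule.span_induction with
  | mem y hys => exact hy ⟨y, hys⟩ g (Subgroup.mem_iInf.1 hg _)
  | zero => rw [map_zero, smul_zero]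
  | add a b _ _ ha hb => rw [map_add, ha, hb, smul_add]
  | smul r a _ ha => rw [map_smul, ha, smul_comm]

section

variable {A : Type} [Finite A] {m : ℕ} {w : A → ℕ} {T : A → Type} [∀ a, AddCommGroup (T a)]
  [∀ a, Module K (T a)] [∀ a, FiniteDimensional K (T a)] {τ : ∀ a, Representation K G (T a)}
  {B : ∀ a, T a →ₗ[K] T a →ₗ[K] K} {γ : A → Γ} {U : Fin m → Type} [∀ a, AddCommGroup (U a)]
  [∀ a, Module K (U a)] [∀ a, FiniteDimensional K (U a)] {υ : ∀ a, Representation K G (U a)}
  {E : Type} [AddCommGroup E] [Module K E] [FiniteDimensional K E] {σ : Representation K G E}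

/-- the action on products of the forms -/
theorem pairings_act [DecidableEq A] (hM : ∀ a, IsOddMotive ι q (w a) (τ a) (B a)) {n : ℕ}
    (s : Fin n → A) {l : ℕ} (e : Fin l × Fin 2 ≃ Fin n) (g : G) (v : ∀ r, T (s r)) :
    pairings B s e (fun r => τ (s r) g (v r)) =
      (q g : K) ^ ((∑ r, w (s r)) / 2) * pairings B s e v := by
  by_cases h : ∀ a, s (e (a, 0)) = s (e (a, 1))
  · have h1 : (∑ r, w (s r)) / 2 = ∑ a, w (s (e (a, 1))) := by
      have h2 : ∑ r, w (s r) = 2 * ∑ a, w (s (e (a, 1))) := by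
        rw [← e.sum_comp, Fintype.sum_prod_type, Finset.mul_sum]
        refine Finset.sum_congr rfl fun a _ => ?_
        rw [Fin.sum_univ_two, h a]
        ring
      omega
    rw [h1]
    unfold pairings
    rw [← Finset.prod_pow_eq_pow_sum, ← Finset.prod_mul_distrib]
    refine Finset.prod_congr rfl fun a _ => ?_
    have key : ∀ {i j : A} (x : T i) (y : T j), pairing B (τ i g x) (τ j g y) =
        (q g : K) ^ w j * pairing B x y := by
      intro i j x y
      unfold pairing
      split_ifs with h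
      · subst h
        exact (hM i).equiv g x y
      · rw [mul_zero]
    exact key _ _
  · push Not at h
    obtain ⟨a, ha⟩ := h
    have h0 : ∀ v : ∀ r, T (s r), pairings B s e v = 0 := by
      intro v
      unfold pairings
      refine Finset.prod_eq_zero (Finset.mem_univ a) ?_
      unfold pairing
      rw [dif_neg ha]
    rw [h0, h0, mul_zero]

/-- **The structure of the Tate classes.** -/
theorem struct [DecidableEq A] (hM : ∀ a, IsOddMotive ι q (w a) (τ a) (B a))
    (hγ : ∀ a, BadElement ι (τ a) (γ a))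
    (hiso : ∀ a b, a ≠ b → ¬AV.S.IsoUpToFunction ((τ a).comp ι) ((τ b).comp ι))
    (hU : ∀ a i, IsSmall ι (τ i) (γ i) (υ a)) (hE : BuiltFrom q υ σ) {n : ℕ} (s : Fin n → A)
    (φ : MultilinearMap K (fun l => T (s l)) E) {Δ : Subgroup Γ} (hΔ : Δ.FiniteIndex) {j : ℤ}
    (hφ : ∀ g ∈ Δ, homRep s τ σ (ι g) φ = ((q (ι g) ^ j : Kˣ) : K) • φ) :
    (fun v => φ v) ∈ Submodule.span K {f : (∀ l, T (s l)) → E |
      ∃ (l : ℕ) (e : Fin l × Fin 2 ≃ Fin n) (y : E), f = fun v => pairings B s e v • y} := by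
  have := Fintype.ofFinite A
  refine mem_span (ω := B) (fun a => (hM a).anti) (fun a => (hM a).nondeg) ?_
  intro i x y
  obtain ⟨D, h1, h2, h3⟩ := exists_op ι q w τ B hM γ hγ hiso υ hU σ hE (-j) i x y
  refine ⟨D, h1, h2, fun v => h3 n s Δ hΔ φ (fun g hg v => ?_) v⟩
  have h4 := congrArg (fun f => f fun l => τ (s l) (ι g) (v l)) (hφ g hg)
  have h5 : homRep s τ σ (ι g) φ (fun l => τ (s l) (ι g) (v l)) = σ (ι g) (φ v) := by
    change σ (ι g) (φ fun l => τ (s l) (ι g)⁻¹ (τ (s l) (ι g) (v l))) = _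
    congr 2
    funext l
    rw [← Module.End.mul_apply, ← map_mul, inv_mul_cancel, map_one, Module.End.one_apply]
  have h6 : σ (ι g) (φ v) = ((q (ι g) ^ j : Kˣ) : K) • φ fun l => τ (s l) (ι g) (v l) := by
    rw [← h5]
    exact h4
  rw [h6, smul_smul, ← Units.val_mul, ← zpow_add, neg_add_cancel, zpow_zero, Units.val_one,
    one_smul]

/-- **The Tate classes.** -/
theorem motivated (hM : ∀ a, IsOddMotive ι q (w a) (τ a) (B a))
    (hγ : ∀ a, BadElement ι (τ a) (γ a))
    (hiso : ∀ a b, a ≠ b → ¬AV.S.IsoUpToFunction ((τ a).comp ι) ((τ b).comp ι))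
    (hU : ∀ a i, IsSmall ι (τ i) (γ i) (υ a)) (hE : BuiltFrom q υ σ)
    (hT : TateMotivated ι q σ) {n : ℕ} (s : Fin n → A) :
    TateMotivated ι q (homRep s τ σ) := by
  classical
  rintro j φ ⟨Δ, hΔ, hφ⟩
  have h1 := struct hM hγ hiso hU hE s φ hΔ hφ
  obtain ⟨W, hW⟩ : ∃ W, W = (∑ r, w (s r)) / 2 := ⟨_, rfl⟩
  -- the action of the motivic Galois group on the variables
  have h2 : ∀ (g : G) (v : ∀ l, T (s l)), φ (fun l => τ (s l) g (v l)) =
      (q g : K) ^ W • φ v := by
    intro g
    have h3 : ∀ f ∈ Submodule.span K {f : (∀ l, T (s l)) → E |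
        ∃ (l : ℕ) (e : Fin l × Fin 2 ≃ Fin n) (y : E), f = fun v => pairings B s e v • y},
        ∀ v, f (fun l => τ (s l) g (v l)) = (q g : K) ^ W • f v := by
      intro f hf
      induction hf using Submodule.span_induction with
      | mem f hf =>
        obtain ⟨l, e, y, rfl⟩ := hf
        intro v
        change pairings B s e (fun l => τ (s l) g (v l)) • y = _ • pairings B s e v • y
        rw [pairings_act hM, smul_smul, hW]
      | zero => intro v; exact (smul_zero _).symm
      | add a b _ _ ha hb =>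
        intro v
        change a _ + b _ = _ • (a v + b v)
        rw [ha, hb, smul_add]
      | smul r a _ ha =>
        intro v
        change r • a _ = _ • r • a v
        rw [ha, smul_comm]
    exact h3 _ h1
  -- the values are Tate classes
  have h4 : ∀ y ∈ Submodule.span K (Set.range φ), ∀ g ∈ Δ,
      σ (ι g) y = ((q (ι g) ^ (j + W) : Kˣ) : K) • y := by
    intro y hy g hg
    induction hy using Submodule.span_induction with
    | mem y hy =>
      obtain ⟨v, rfl⟩ := hy
      have h5 := congrArg (fun f => f fun l => τ (s l) (ι g) (v l)) (hφ g hg)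
      have h6 : homRep s τ σ (ι g) φ (fun l => τ (s l) (ι g) (v l)) = σ (ι g) (φ v) := by
        change σ (ι g) (φ fun l => τ (s l) (ι g)⁻¹ (τ (s l) (ι g) (v l))) = _
        congr 2
        funext l
        rw [← Module.End.mul_apply, ← map_mul, inv_mul_cancel, map_one, Module.End.one_apply]
      rw [← h6]
      refine Eq.trans h5 ?_
      change ((q (ι g) ^ j : Kˣ) : K) • φ (fun l => τ (s l) (ι g) (v l)) = _
      rw [h2, smul_smul, zpow_add, Units.val_mul, zpow_natCast, Units.val_pow_eq_pow_val]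
    | zero => rw [map_zero, smul_zero]
    | add a b _ _ ha hb => rw [map_add, ha, hb, smul_add]
    | smul r a _ ha => rw [map_smul, ha, smul_comm]
  obtain ⟨Δ', hΔ', h5⟩ := uniform (q := q) (σ := σ) (j := j + W)
    (S := Submodule.span K (Set.range φ)) fun y hy => hT (j + W) y ⟨Δ, hΔ, fun g hg => h4 y hy g hg⟩
  refine ⟨Δ', hΔ', fun g hg => ?_⟩
  ext v
  change σ g (φ fun l => τ (s l) g⁻¹ (v l)) = ((q g ^ j : Kˣ) : K) • φ v
  rw [h2, map_smul, h5 g hg _ (Submodule.subset_span ⟨v, rfl⟩), smul_smul,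
    ← Units.val_pow_eq_pow_val, ← Units.val_mul]
  congr 2
  rw [map_inv, inv_pow, zpow_add, zpow_natCast]
  group

theorem of_homRep {s : Fin 0 → A} (h : TateMotivated ι q (homRep s τ σ)) :
    TateMotivated ι q σ := by
  rintro j y ⟨Δ, hΔ, h1⟩
  obtain ⟨Δ', hΔ', h2⟩ := h j (MultilinearMap.constOfIsEmpty K _ y) ⟨Δ, hΔ, fun g hg => by
    ext v
    exact h1 g hg⟩
  refine ⟨Δ', hΔ', fun g hg => ?_⟩
  exact congrArg (fun f => f fun l => l.elim0) (h2 g hg)

end

theorem same_of_motivated {E : Type} [AddCommGroup E] [Module K E] {σ : Representation K G E}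
    (hι : OntoQuotients ι) (h : TateMotivated ι q σ) : SameTateClasses ι q σ := by
  intro j w hw g
  obtain ⟨Δ, hΔ, h1⟩ := h j w ⟨⊤, inferInstance, fun s _ => hw s⟩
  obtain ⟨s, d, hd, rfl⟩ := hι Δ hΔ g
  rw [map_mul, Module.End.mul_apply, h1 d hd, map_smul, hw s, smul_smul, map_mul, mul_zpow,
    Units.val_mul, mul_comm]

theorem trivial_motivated (hq : InfiniteOrder ι q) :
    TateMotivated ι q (Representation.trivial K G K) := by
  intro j e he
  obtain ⟨Δ, hΔ, h⟩ := he
  by_cases hj : j = 0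
  · refine ⟨⊤, inferInstance, fun g _ => ?_⟩
    rw [hj, zpow_zero, Units.val_one, one_smul]
    rfl
  · obtain ⟨s, hs, hs1⟩ := hq j hj Δ hΔ
    have h1 : e = ((q (ι s) ^ j : Kˣ) : K) * e := h s hs
    have h2 : e = 0 := by
      by_contra h0
      apply hs1
      apply Units.ext
      rw [Units.val_one]
      exact mul_right_cancel₀ h0 (by rw [← h1, one_mul])
    refine ⟨⊤, inferInstance, fun g _ => ?_⟩
    rw [h2, map_zero, smul_zero]

theorem trivial_built {m : ℕ} {U : Fin m → Type} [∀ a, AddCommGroup (U a)]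
    [∀ a, Module K (U a)] (υ : ∀ a, Representation K G (U a)) :
    BuiltFrom q υ (Representation.trivial K G K) := by
  unfold BuiltFrom
  rw [eq_top_iff]
  intro y _
  have h1 : y = y • (1 : K) := by rw [smul_eq_mul, mul_one]
  rw [h1]
  refine Submodule.smul_mem _ _ (Submodule.subset_span ⟨0, fun l => l.elim0, 0,
    MultilinearMap.constOfIsEmpty K _ (1 : K), fun g v => ?_, fun l => l.elim0, rfl⟩)
  rw [zpow_zero, Units.val_one, one_smul]
  rfl

section final

variable {A : Type} [Finite A] {m : ℕ} {w : A → ℕ} {T : A → Type} [∀ a, AddCommGroup (T a)]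
  [∀ a, Module K (T a)] [∀ a, FiniteDimensional K (T a)] {τ : ∀ a, Representation K G (T a)}
  {B : ∀ a, T a →ₗ[K] T a →ₗ[K] K} {γ : A → Γ} {U : Fin m → Type} [∀ a, AddCommGroup (U a)]
  [∀ a, Module K (U a)] [∀ a, FiniteDimensional K (U a)] {υ : ∀ a, Representation K G (U a)}

theorem final [DecidableEq A] (h : BadFamily ι q w τ B γ υ) {C : Type} {E : C → Type}
    [∀ c, AddCommGroup (E c)] [∀ c, Module K (E c)] [∀ c, FiniteDimensional K (E c)]
    (σ : ∀ c, Representation K G (E c)) (hE : ∀ c, BuiltFrom q υ (σ c)) :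
    (∀ c, GeneratedByPolarizations ι q τ B (σ c)) ∧
    ((∀ c, HomMotivated ι q τ (σ c)) ↔ ∀ c, TateMotivated ι q (σ c)) ∧
    (OntoQuotients ι → (∀ c, TateMotivated ι q (σ c)) → ∀ c, HomSameTateClasses ι q τ (σ c)) ∧
    (InfiniteOrder ι q → HomMotivated ι q τ (Representation.trivial K G K) ∧
      (OntoQuotients ι → HomSameTateClasses ι q τ (Representation.trivial K G K))) := by
  have h1 : ∀ c, TateMotivated ι q (σ c) → ∀ n (s : Fin n → A),
      TateMotivated ι q (homRep s τ (σ c)) := fun c hc n s =>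
    motivated h.motive h.bad h.distinct h.small (hE c) hc s
  have h2 : InfiniteOrder ι q → ∀ n (s : Fin n → A),
      TateMotivated ι q (homRep s τ (Representation.trivial K G K)) := fun hq n s =>
    motivated h.motive h.bad h.distinct h.small (trivial_built υ) (trivial_motivated hq) s
  refine ⟨fun c n s φ j Δ hΔ hφ => struct h.motive h.bad h.distinct h.small (hE c) s φ hΔ hφ,
    ⟨fun h3 c => of_homRep (s := fun l => l.elim0) (fun j φ hφ => h3 c 0 _ j φ hφ),
      fun h3 c n s j φ hφ => h1 c (h3 c) n s j φ hφ⟩,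
    fun hι h3 c n s j φ hφ => same_of_motivated hι (h1 c (h3 c) n s) j φ hφ,
    fun hq => ⟨fun n s j φ hφ => h2 hq n s j φ hφ,
      fun hι n s j φ hφ => same_of_motivated hι (h2 hq n s) j φ hφ⟩⟩

end final

end

end Pool.Agent.X292.MS
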