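import Pool.Agent.X292.MS.Defs
import Pool.Agent.X292.AV.App

/-!
# Operators which act on one motive of a family only
-/

set_option autoImplicit false
set_option linter.unusedSectionVars false

namespace Pool.Agent.X292.MS

open Module Finset Function Pool.Agent.TH118.SG Pool.Agent.TH125.Gal Pool.Agent.Y127.G
  Pool.Agent.Y127.C Pool.Agent.X292.SP Pool.Agent.X292.AV Pool.Agent.Y134.MR Pool.Agent.X292.TS

noncomputable section

variable {K : Type} [Field K] [CharZero K] [IsAlgClosed K] {Γ G : Type} [Group Γ] [Group G]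

/-- the restriction to the Galois group -/
def res (ι : Γ →* G) {T : Type} [AddCommGroup T] [Module K T] [FiniteDimensional K T]
    (τ : Representation K G T) : FRep K Γ where
  V := T
  ρ := τ.comp ι

/-- the restriction to the Galois group, twisted by a character -/
def twRes (ι : Γ →* G) (χ : Γ →* Kˣ) {T : Type} [AddCommGroup T] [Module K T]
    [FiniteDimensional K T] (τ : Representation K G T) : FRep K Γ where
  V := T
  ρ :=
    { toFun := fun g => (χ g : K) • τ (ι g)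
      map_one' := by
        rw [map_one, map_one, map_one, Units.val_one, one_smul]
      map_mul' := by
        intro g g'
        apply LinearMap.ext
        intro x
        rw [map_mul, map_mul, map_mul, Units.val_mul]
        change ((χ g : K) * χ g') • τ (ι g) (τ (ι g') x) =
          (χ g : K) • τ (ι g) ((χ g' : K) • τ (ι g') x)
        rw [map_smul, smul_smul] }

/-- the index set -/
inductive Jx (A : Type) (m : ℕ) : Type
  | t (j : A)
  | pc (a : Fin m)
  | mu (j : A)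
  | cf (a : Fin m)
  | tw (k : ℤ)
  | tg (k : ℤ)

section

variable {A : Type} {m : ℕ} {T : A → Type} [∀ a, AddCommGroup (T a)] [∀ a, Module K (T a)]
  [∀ a, FiniteDimensional K (T a)] {U : Fin m → Type} [∀ a, AddCommGroup (U a)]
  [∀ a, Module K (U a)] [∀ a, FiniteDimensional K (U a)] {E : Type} [AddCommGroup E] [Module K E]
  [FiniteDimensional K E]

/-- the family -/
def fam (ι : Γ →* G) (q : G →* Kˣ) (w : A → ℕ) (κ : Fin m → Γ →* Kˣ)
    (τ : ∀ a, Representation K G (T a)) (υ : ∀ a, Representation K G (U a))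
    (σ : Representation K G E) : Jx A m → FRep K Γ
  | .t j => res ι (τ j)
  | .pc a => res ι (υ a)
  | .mu j => line ((q.comp ι) ^ w j)
  | .cf a => line (κ a)
  | .tw c => line ((q.comp ι) ^ c)
  | .tg c => twRes ι ((q.comp ι) ^ c) σ

theorem sq0 {R : Type} [Monoid R] [Zero R] {x : R} (h : x ^ 2 = 0) : x * x = 0 :=
  (pow_two x).symm.trans h

theorem not_even_zero {W : Type} [AddCommGroup W] [Module K W] :
    ¬EvenBlocks (0 : Module.End K W) := by
  rintro ⟨-, -, -, m, hm, h4⟩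
  unfold jordanBlocks at h4
  rcases Nat.eq_zero_or_pos m with rfl | hpos
  · simp at h4
  · obtain ⟨r, hr⟩ := hm
    rw [zero_pow (by omega), LinearMap.range_zero, inf_bot_eq, finrank_bot, Nat.zero_sub] at h4
    exact zero_ne_one h4

/-- the element gives the whole symplectic Lie algebra -/
theorem exists_sful {ι : Type} {N : ι → FRep K Γ} {t : ι} {fr : Frm N t}
    (al : ∀ x y, fr.B x y = -fr.B y x) (nd : ∀ x, (∀ y, fr.B x y = 0) → x = 0)
    (si : SI (N t).ρ) {μ : Γ →* K} (hμ : ∀ g, fr.μ g = μ g) {γ : Γ}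
    (h : ToricOn γ (N t) ∨ EvenBlocks ((N t).ρ γ - 1 : Module.End K (N t).V) ∨
      OneBlock ((N t).ρ γ - 1 : Module.End K (N t).V) ∧ NotGeometric (N t).ρ) :
    (∃ o : SFul N t, o.toFrm = fr) ∧ ∃ n, ((N t).ρ γ - 1 : Module.End K (N t).V) ^ n = 0 := by
  obtain ⟨J, hJ, hlog⟩ := exists_GGlog N γ
  rcases h with h | h | ⟨⟨h1, h2, h3⟩, h4⟩
  · refine ⟨exists_toric al nd si hμ h ?_, 2, ?_⟩
    · by_contra hcon
      push Not at hcon
      have h1 := ne_zero_of_toric h
      have h2 : LinearMap.range ((N t).ρ γ - 1) = ⊥ := by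
        rw [eq_bot_iff]
        rintro _ ⟨z, rfl⟩
        rw [Submodule.mem_bot]
        exact hcon _
      rw [h2, finrank_bot] at h1
      omega
    · rw [pow_two]
      exact h.1
  · obtain ⟨D, ht⟩ := typ2_of h
    obtain ⟨k, hk⟩ := ht.nil
    obtain ⟨V, hV, hc, h1⟩ := lgC_eq (K := K) hk
    refine ⟨exists_even (μ := μ) al nd si hμ hJ (D := D) ?_, k, hk⟩
    rw [hlog t k hk, h1]
    exact typ2_unit hV hc ht
  · obtain ⟨D, hD⟩ : ∃ D, finrank K (N t).V = D + 1 := ⟨finrank K (N t).V - 1, by omega⟩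
    rw [hD, Nat.add_sub_cancel] at h3
    obtain ⟨n, hn0⟩ := h1
    have hD1 : ((N t).ρ γ - 1 : Module.End K (N t).V) ^ (D + 1) = 0 := by
      rw [← hD]
      have h5 := (LinearMap.isNilpotent_iff_charpoly ((N t).ρ γ - 1 : Module.End K (N t).V)).1
        ⟨n, hn0⟩
      have h6 := LinearMap.aeval_self_charpoly ((N t).ρ γ - 1 : Module.End K (N t).V)
      rwa [h5, map_pow, Polynomial.aeval_X] at h6
    obtain ⟨V, hV, hc, h5⟩ := lgC_eq (K := K) hD1
    refine ⟨exists_single al nd si hJ (D := D) (by omega) hD ?_ ?_ ?_, _, hD1⟩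
    · rw [hlog t _ hD1, h5]
      exact (pow_unit hV hc _).2 hD1
    · rw [hlog t _ hD1, h5]
      exact fun h => h3 ((pow_unit hV hc _).1 h)
    · rcases h4 with h4 | ⟨φ, hφ⟩
      · exact Or.inl (by omega)
      · refine Or.inr ⟨φ, fun a c => ?_⟩
        have h6 := hφ a c
        rw [hD] at h6
        simpa only [Nat.lt_succ_iff] using h6

/-- **Operators on one member.** -/
theorem exists_op [Finite A] (ι : Γ →* G) (q : G →* Kˣ) (w : A → ℕ)
    (τ : ∀ a, Representation K G (T a)) (B : ∀ a, T a →ₗ[K] T a →ₗ[K] K)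
    (hM : ∀ a, IsOddMotive ι q (w a) (τ a) (B a)) (γ : A → Γ)
    (hγ : ∀ a, BadElement ι (τ a) (γ a))
    (hiso : ∀ a b, a ≠ b → ¬AV.S.IsoUpToFunction ((τ a).comp ι) ((τ b).comp ι))
    (υ : ∀ a, Representation K G (U a)) (hU : ∀ a i, IsSmall ι (τ i) (γ i) (υ a))
    (σ : Representation K G E) (hE : BuiltFrom q υ σ) (k : ℤ) (i : A) (x y : T i) :
    ∃ D : ∀ j, T j →ₗ[K] T j, D i = oo (B i) (-1) x y ∧ (∀ j, j ≠ i → D j = 0) ∧
      ∀ (n : ℕ) (s : Fin n → A) (Δ : Subgroup Γ), Δ.FiniteIndex →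
        ∀ h : MultilinearMap K (fun r => T (s r)) E,
          (∀ g ∈ Δ, ∀ v, h (fun r => τ (s r) (ι g) (v r)) =
            ((q (ι g) ^ k : Kˣ) : K) • σ (ι g) (h v)) →
          ∀ v, ∑ r, h (update v r (D (s r) (v r))) = 0 := by
  classical
  -- the characters of the forms
  have hκ : ∀ a, ∃ κ : Γ →* Kˣ,
      (∃ B : U a →ₗ[K] U a →ₗ[K] K, (∀ x y, B x y = (1 : K) * B y x) ∧
        (∀ x, (∀ y, B x y = 0) → x = 0) ∧
        (∀ g x y, B (υ a (ι g) x) (υ a (ι g) y) = (κ g : K) * B x y) ∧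
        (finrank K (U a) ≤ finrank K (T i) ∨ ((υ a (ι (γ i)) - 1) ^ 2 = 0 ∧
          (τ i (ι (γ i)) - 1) ^ 2 = 0 ∧ rankOf ι (υ a) (γ i) ≤ rankOf ι (τ i) (γ i)))) ∨
      (∃ B : U a →ₗ[K] U a →ₗ[K] K, (∀ x y, B x y = (-1 : K) * B y x) ∧
        (∀ x, (∀ y, B x y = 0) → x = 0) ∧
        (∀ g x y, B (υ a (ι g) x) (υ a (ι g) y) = (κ g : K) * B x y) ∧
        (finrank K (U a) < finrank K (T i) ∨ ((υ a (ι (γ i)) - 1) ^ 2 = 0 ∧
          (τ i (ι (γ i)) - 1) ^ 2 = 0 ∧ rankOf ι (υ a) (γ i) < rankOf ι (τ i) (γ i)))) ∨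
      (∃ d : ℕ, (υ a (ι (γ i)) - 1) ^ d = 0 ∧ (τ i (ι (γ i)) - 1) ^ d ≠ 0) ∨
      ((υ a (ι (γ i)) - 1) ^ 2 = 0 ∧ (τ i (ι (γ i)) - 1) ^ 2 = 0 ∧
        2 * rankOf ι (υ a) (γ i) ^ 2 < rankOf ι (τ i) (γ i) * (rankOf ι (τ i) (γ i) + 1)) := by
    intro a
    rcases hU a i with ⟨⟨μ, B, h1, h2, h3⟩, h4⟩ | ⟨⟨μ, B, h1, h2, h3⟩, h4⟩ | h |
      ⟨h5, h6, h | ⟨⟨μ, B, h1, h2, h3⟩, h4⟩ | ⟨⟨μ, B, h1, h2, h3⟩, h4⟩⟩
    · exact ⟨μ, Or.inl ⟨B, h1, h2, h3, Or.inl h4⟩⟩
    · exact ⟨μ, Or.inr (Or.inl ⟨B, h1, h2, h3, Or.inl h4⟩)⟩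
    · exact ⟨1, Or.inr (Or.inr (Or.inl h))⟩
    · exact ⟨1, Or.inr (Or.inr (Or.inr ⟨h5, h6, h⟩))⟩
    · exact ⟨μ, Or.inl ⟨B, h1, h2, h3, Or.inr ⟨h5, h6, h4⟩⟩⟩
    · exact ⟨μ, Or.inr (Or.inl ⟨B, h1, h2, h3, Or.inr ⟨h5, h6, h4⟩⟩)⟩
  choose κ hκ using hκ
  let N : Jx A m → FRep K Γ := fam ι q w κ τ υ σ
  -- the forms
  let fr : ∀ j, Frm N (Jx.t j) := fun j => ⟨B j, fun g => (((q.comp ι) ^ w j : Γ →* Kˣ) g : K),
    fun g x y => by
      have h1 := (hM j).equiv (ι g) x y
      rw [← Units.val_pow_eq_pow_val] at h1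
      exact h1, Jx.mu j, line_finrank _, fun g x => rfl⟩
  -- the members of symplectic type
  have hfr : ∀ j, (∃ o : SFul N (Jx.t j), o.toFrm = fr j) ∧
      ∃ n, ((N (Jx.t j)).ρ (γ j) - 1 : Module.End K (N (Jx.t j)).V) ^ n = 0 := fun j =>
    exists_sful (t := Jx.t j) (fr := fr j) (hM j).anti (hM j).nondeg (hM j).irreducible
      (μ := (Units.coeHom K).comp ((q.comp ι) ^ w j)) (fun g => rfl) (hγ j)
  choose o ho using fun j => (hfr j).1
  have hoB : ∀ j, (o j).B = B j := fun j => by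
    have h1 := congrArg Frm.B (ho j)
    exact h1
  have hgoodT : ∀ j, j ≠ i → Good N (Jx.t i) (Jx.t j) := fun j hj =>
    (o i).good_of_not_iso (o j) (hiso j i hj)
  -- the logarithm
  obtain ⟨J, hJG, hJlog⟩ := exists_GGlog N (γ i)
  have hJt : ((τ i (ι (γ i)) - 1 : Module.End K (T i)) ^ 2 = 0) →
      (J (Jx.t i) : Module.End K (T i)) = (τ i (ι (γ i)) - 1 : Module.End K (T i)) := fun h =>
    lgsq (M := res ι (τ i)) (hJlog (Jx.t i)) (by rw [← pow_two]; exact h)
  have hJa : ∀ a, ((υ a (ι (γ i)) - 1 : Module.End K (U a)) ^ 2 = 0) →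
      (J (Jx.pc a) : Module.End K (U a)) = (υ a (ι (γ i)) - 1 : Module.End K (U a)) := fun a h =>
    lgsq (M := res ι (υ a)) (hJlog (Jx.pc a)) (by rw [← pow_two]; exact h)
  have hgoodM : ∀ a, Good N (Jx.t i) (Jx.pc a) := by
    intro a
    have hpos : (τ i (ι (γ i)) - 1 : Module.End K (T i)) ^ 2 = 0 → 0 < rankOf ι (τ i) (γ i) := by
      intro h2
      rw [Nat.pos_iff_ne_zero]
      intro h0
      have h3 : τ i (ι (γ i)) - 1 = 0 := by
        rw [← LinearMap.range_eq_bot]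
        exact Submodule.finrank_eq_zero.1 h0
      rcases hγ i with h | h | ⟨h, -⟩
      · have h4 := ne_zero_of_toric (M := res ι (τ i)) (γ := γ i) h
        have h5 : finrank K (LinearMap.range (τ i (ι (γ i)) - 1)) ≠ 0 := by
          intro h6
          rw [show (finrank K (LinearMap.range ((res ι (τ i)).ρ (γ i) - 1)) =
            finrank K (LinearMap.range (τ i (ι (γ i)) - 1))) from rfl, h6] at h4
          omega
        exact h5 h0
      · rw [h3] at h
        exact not_even_zero h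
      · have h5 := h.2.2
        rw [h3, zero_pow (by have := h.2.1; omega)] at h5
        exact h5 rfl
    rcases hκ a with ⟨B', h1, h2, h3, h4 | ⟨h5, h6, h4⟩⟩ | ⟨B', h1, h2, h3, h4 | ⟨h5, h6, h4⟩⟩ |
      ⟨d, h1, h2⟩ | ⟨h5, h6, h4⟩
    · refine (o i).good_of_sym (a := Jx.pc a) ⟨B', fun g => (κ a g : K), h3, Jx.cf a,
        line_finrank _, fun g x => rfl⟩ (fun x y => (h1 x y).trans (one_mul _)) h2 h4
    · refine good_of_rank_form (o i) hJG (a := Jx.pc a) ?_ ?_ ⟨B', fun g => (κ a g : K), h3,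
        Jx.cf a, line_finrank _, fun g x => rfl⟩ h2 (Or.inl ⟨fun x y => (h1 x y).trans (one_mul _),
          ?_, ?_⟩)
      · rw [hJt h6]
        exact sq0 h6
      · rw [hJa a h5]
        exact sq0 h5
      · rw [hJa a h5, hJt h6]
        exact h4
      · rw [hJt h6]
        exact hpos h6
    · refine (o i).good_of_alt (a := Jx.pc a) ⟨B', fun g => (κ a g : K), h3, Jx.cf a,
        line_finrank _, fun g x => rfl⟩ (fun x y => (h1 x y).trans (neg_one_mul _)) h2 h4
    · refine good_of_rank_form (o i) hJG (a := Jx.pc a) ?_ ?_ ⟨B', fun g => (κ a g : K), h3,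
        Jx.cf a, line_finrank _, fun g x => rfl⟩ h2 (Or.inr ⟨fun x y =>
          (h1 x y).trans (neg_one_mul _), ?_⟩)
      · rw [hJt h6]
        exact sq0 h6
      · rw [hJa a h5]
        exact sq0 h5
      · rw [hJa a h5, hJt h6]
        exact h4
    · obtain ⟨n, hn⟩ := (hfr i).2
      obtain ⟨V, hV, hc, h5⟩ := lgC_eq (K := K) hn
      obtain ⟨V', hV', hc', h6⟩ := lgC_eq (K := K) h1
      refine (o i).good_of_deg hJG (a := Jx.pc a) (n := n) (D := d) ?_ ?_ ?_
      · rw [hJlog (Jx.t i) n hn]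
        refine (congrArg (fun X : Module.End K (T i) => X ^ n) h5).trans ?_
        exact (pow_unit hV hc _).2 hn
      · rw [hJlog (Jx.t i) n hn]
        intro h7
        apply h2
        refine (pow_unit hV hc _).1 ?_
        exact (congrArg (fun X : Module.End K (T i) => X ^ d) h5).symm.trans h7
      · rw [hJlog (Jx.pc a) d h1]
        refine (congrArg (fun X : Module.End K (U a) => X ^ d) h6).trans ?_
        exact (pow_unit hV' hc' _).2 h1
    · refine good_of_rank (o i) hJG (a := Jx.pc a) ?_ ?_ ?_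
      · rw [hJt h6]
        exact sq0 h6
      · rw [hJa a h5]
        exact sq0 h5
      · rw [hJa a h5, hJt h6]
        exact h4
  -- an operator which kills the other members
  have := Fintype.ofFinite A
  obtain ⟨D, hD, hD0, hDt⟩ := (o i).good_finset
    (((univ : Finset A).erase i).image Jx.t ∪ (univ : Finset (Fin m)).image Jx.pc) (by
      intro a ha
      rcases Finset.mem_union.1 ha with ha | ha
      · obtain ⟨j, hj, rfl⟩ := Finset.mem_image.1 ha
        exact hgoodT j (Finset.ne_of_mem_erase hj)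
      · obtain ⟨a, -, rfl⟩ := Finset.mem_image.1 ha
        exact hgoodM a) x y
  have hDG := GG1_le hD
  have hDT : ∀ j, j ≠ i → D (Jx.t j) = 0 := fun j hj => hD0 _ (Finset.mem_union_left _
    (Finset.mem_image.2 ⟨j, Finset.mem_erase.2 ⟨hj, Finset.mem_univ j⟩, rfl⟩))
  have hDM : ∀ a, D (Jx.pc a) = 0 := fun a => hD0 _ (Finset.mem_union_right _
    (Finset.mem_image.2 ⟨a, Finset.mem_univ _, rfl⟩))
  have hDc : ∀ c, D (Jx.tw c) = 0 := fun c => GG1_line hD (line_finrank _).le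
  -- the target
  let F : ℤ → (E →ₗ[K] E) := fun c => D (Jx.tg c)
  have htw : ∀ (c c' : ℤ) (z : E), F c z = F c' z := by
    intro c c' z
    have h4 : ∀ (g : Γ) (x : K) (y : E),
        (((((q.comp ι) ^ (c - c') : Γ →* Kˣ) g : Kˣ) : K) • x) •
          (((((q.comp ι) ^ c' : Γ →* Kˣ) g : Kˣ) : K) • σ (ι g) y) =
        ((((q.comp ι) ^ c : Γ →* Kˣ) g : Kˣ) : K) • σ (ι g) (x • y) := by
      intro g x y
      have h5 : (((q.comp ι) ^ c : Γ →* Kˣ) g : Kˣ) =
          ((q.comp ι) ^ (c - c') : Γ →* Kˣ) g * ((q.comp ι) ^ c' : Γ →* Kˣ) g := by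
        rw [← MonoidHom.mul_apply, ← zpow_add, sub_add_cancel]
      rw [h5, Units.val_mul, map_smul, smul_smul, smul_smul, smul_eq_mul]
      congr 1
      ring
    have h1 := bil_der (N := N) (a := Jx.tw (c - c')) (b := Jx.tg c') (c := Jx.tg c)
      (LinearMap.lsmul K E) (Δ := ⊤) inferInstance (fun g _ x y => h4 g x y) hDG (1 : K) z
    rw [hDc] at h1
    have h2 : (0 : K) • z + (1 : K) • F c' z = F c ((1 : K) • z) := h1
    rw [zero_smul, one_smul, zero_add, one_smul] at h2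
    exact h2.symm
  have htgt : ∀ z : E, F k z = 0 := by
    intro z
    have hz : z ∈ Submodule.span K {y : E | ∃ (n : ℕ) (s : Fin n → Fin m) (c : ℤ)
        (φ : MultilinearMap K (fun l : Fin n => U (s l)) E),
        (∀ g v, φ (fun l => υ (s l) g (v l)) = ((q g ^ c : Kˣ) : K) • σ g (φ v)) ∧
          ∃ v, φ v = y} := by
      have h1 : Submodule.span K {y : E | ∃ (n : ℕ) (s : Fin n → Fin m) (c : ℤ)
        (φ : MultilinearMap K (fun l : Fin n => U (s l)) E),
        (∀ g v, φ (fun l => υ (s l) g (v l)) = ((q g ^ c : Kˣ) : K) • σ g (φ v)) ∧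
          ∃ v, φ v = y} = ⊤ := hE
      rw [h1]
      exact Submodule.mem_top
    induction hz using Submodule.span_induction with
    | mem z hz =>
      obtain ⟨n, s, c, φ, hφ, v, rfl⟩ := hz
      have h1 := hDG (Fin n) (fun l => Jx.pc (s l)) (Jx.tg c) φ
        ⟨⊤, inferInstance, fun g _ v => hφ (ι g) v⟩ v
      rw [htw k c]
      refine h1.symm.trans (Finset.sum_eq_zero fun l _ => ?_)
      rw [hDM]
      exact φ.map_coord_zero l (update_self _ _ _)
    | zero => exact map_zero (F k)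
    | add a b _ _ ha hb => rw [map_add, ha, hb, add_zero]
    | smul r a _ ha => rw [map_smul, ha, smul_zero]
  refine ⟨fun j => D (Jx.t j), ?_, hDT, ?_⟩
  · change D (Jx.t i) = _
    rw [hDt, hoB]
    rfl
  · intro n s Δ hΔ h hh v
    exact (hDG (Fin n) (fun r => Jx.t (s r)) (Jx.tg k) h ⟨Δ, hΔ, hh⟩ v).trans (htgt (h v))

end

end

end Pool.Agent.X292.MS
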